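import Mathlib
import Pool.Agent.K6.H50.MD.Fin

/-!
# Weight-monodromy when the strata have algebraic cohomology outside the middle degree

Let `K` be a `p`-adic field with residue field with `q` elements, and let `X` be a smooth proper rigid-analytic
space over `K`, and `V = H ^ m (X)`, with a geometric Frobenius lift `Φ` and the logarithm `N` of the monodromy.

We consider the eigenvalues `α` of `Φ` on `V` (`Witness`) for which there are

* a finite extension `K'` of `K`, with residue field of degree `k`, and a generically finite map `X' → X` of
  smooth proper rigid-analytic spaces, defined over `K'` (for example the identity), such that `X'` has a
  strictly semistable formal model with projective special fibre `Y`;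
* a smooth projective variety `Z` over the residue field of `K'` (for example a point) and an eigenvalue `β` of
  Frobenius on `H ^ s (Z)`;
* a group `Λ` of eigenvalues with `q ^ k ∈ Λ` and `β α ^ k ∈ Λ`, such that, for the intersections `Y_I` of the
  irreducible components of `Y`, on the part of the cohomology of the `Y_I × Z` where the eigenvalues of
  Frobenius are in `Λ`, the **images of the restriction maps and of the Gysin maps** are spanned by classes of
  algebraic cycles; the Hodge-Riemann relations and the hard Lefschetz theorem are assumed for a group of
  classes of algebraic cycles which spans these images and is preserved by the restriction and Gysin maps, the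
  Lefschetz operator and Frobenius.

**Theorem.** (1) The condition on the images holds if the part considered of `H ^ i (Y_I × Z)` is spanned by
classes of algebraic cycles, satisfying the Hodge-Riemann relations, for all `i` different from the middle
degree `dim (Y_I × Z)`. Nothing is assumed about the middle cohomology (apart from the Hodge-Riemann relations
for the algebraic classes), and the hard Lefschetz theorem for algebraic classes need not be assumed.

(2) The sum of the generalised eigenspaces of `Φ` for the eigenvalues as above is mw pure of weight `m`: every
eigenvalue of `Φ` on the graded piece `gr_a` of its monodromy filtration is a `q`-Weil number of weight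
`a + m`.  In particular, if all eigenvalues of `Φ` on `H ^ m (X)` are as above, then the weight-monodromy
conjecture holds for `H ^ m (X)`.

Examples.

* (`Z` a point, `Λ` the group of all elements.) The weight-monodromy conjecture holds for `X` if the cohomology of
  all the strata `Y_I` is spanned by algebraic classes outside the middle degree, and the Hodge-Riemann relations
  hold for algebraic classes. The middle cohomology of the strata is arbitrary: the components may be Fano
  threefolds with any `H ^ 3`, the double surfaces regular surfaces with any `H ^ 2`, e.g. K3 surfaces, the
  triple curves are arbitrary; for `dim X ≤ 3` the Hodge-Riemann relations are the Hodge index theorem. In higher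
  dimensions the strata may be complete intersections in projective spaces.
* It is enough that the strata `Y ^ (a)` with `a` odd, i.e. the components, the intersections of three
  components, and so on, have algebraic cohomology (there is no condition on the cohomology of the double
  intersections), if the Hodge-Riemann relations and the hard Lefschetz theorem hold for the algebraic classes.
  For example `X` may degenerate to the union of two varieties with algebraic cohomology which meet in an
  arbitrary smooth variety, e.g. a Calabi-Yau variety.
* If the part of the cohomology of the strata is algebraic, then it is algebraic outside the middle degree
  (`witness_of_witness` in `Pool.Agent.K6.H50.MD.Fin`).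

The space `X` need not be algebraic, and no hard Lefschetz theorem for `X` is available.  The proof: the
orthogonal complement of the algebraic classes is killed by all the restriction and Gysin maps, so that it is
enough to consider the algebraic classes, and these define a special fibre (in the sense of the library) with
algebraic cohomology; here the Laplace operator of the differential commutes with the monodromy operator and
harmonic theory over the rational numbers can be applied (the argument of Guillen, Navarro Aznar and Saito).
-/

set_option autoImplicit false

namespace Pool.Agent.Results.MP_0f76a4_ag.AlgebraicImages

open Module Pool.Agent.Y143 Pool.Agent.K6.H50.MD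

open Pool.Agent.K6.H87.GN hiding Witness

/-- **The weight-monodromy conjecture for the part of `V = H ^ m (X)` where the images of the restriction and
the Gysin maps between the strata of semistable models are algebraic, for example where the cohomology of the
strata is algebraic outside the middle degree.** -/
theorem result :
    (∀ {Ω : Type} [Field Ω] [CharZero Ω] {Γ : Type} {n q : ℕ} (X : SpecialFibre.{0, 0} Ω Γ n q)
      (Λ : Subgroup Ωˣ), X.cyc X.frob ∈ Λ → Nonempty (AlgebraicOutsideMiddleOn X Λ) →
        Nonempty (AlgebraicImagesOn X Λ)) ∧
    ∀ {Ω : Type} [Field Ω] [CharZero Ω] {V : Type} [AddCommGroup V] [Module Ω V]
      [FiniteDimensional Ω V] {q : ℕ}, 2 ≤ q → ∀ {m : ℤ} {Φ N : Module.End Ω V},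
      (∀ v, N (Φ v) = (q : Ω) • Φ (N v)) →
        IsMWPureOn q m Φ N (gs {α | Nonempty (Witness.{0, 0, 0} q m Φ N α)} Φ) :=
  ⟨fun _ _ hΛ ⟨M⟩ => ⟨M.toImages hΛ⟩, fun hq _ _ _ h => Pool.Agent.K6.H50.MD.isMWPureOn_witness hq h⟩

end Pool.Agent.Results.MP_0f76a4_ag.AlgebraicImages
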