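import Pool.Agent.K6.H99.WM.Main

/-!
# Weight-monodromy and the inertia invariants of the middle cohomology

`C` is a class of smooth proper rigid-analytic spaces over `K` of pure dimension which is closed under products
and contains a Tate curve `E`: for example all the smooth spaces of pure dimension which have an admissible formal
model with projective special fibre, or all the `X ^ a × E ^ b` for one such space `X`. A geometric Frobenius
lift `g` is fixed.

Then Q1 holds for all the spaces in `C` (all degrees and all the graded pieces of the monodromy filtration) if
and only if, for all `c > 0`, there are infinitely many `n` such that, for all `X` in `C` of dimension `n`, the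
eigenvalues of `g` on the part of the middle cohomology `H^n(X)` which is invariant under an open subgroup of
inertia are algebraic numbers all of whose complex conjugates are bounded by `q ^ ((1 + c) n / 2)`.

In other words: if Q1 fails for some space in `C`, then there are `c > 0` and `n₀` such that, for all `n ≥ n₀`,
there is a space `X` in `C` of dimension `n`, and an eigenvalue of `g` on the inertia invariants of the middle
cohomology `H^n(X)` (for which weights at most `n` are expected), which is not algebraic or has a complex
conjugate `z` with `|z| > q ^ ((1 + c) n / 2)`.

Proof. Let `α` be an eigenvalue on the primitive part `P_r` of `H^m(X)`. The product with `H^1(E)^{⊗ r}`, which is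
the `r`-th power of the standard representation, makes it an eigenvalue on `P_0` of `H^(m + r)(X × E^r)`, and
products with `H^0(E)` and `H^2(E)` lead to the middle degree. Then tensor powers and Poincare duality are used.
-/

set_option autoImplicit false

namespace Pool.Agent.Results.MP_0f76a4_ag.MiddleInvariants

universe u v

open Pool.Agent.K6.H99.WM

theorem result {Ω : Type u} [Field Ω] [CharZero Ω] [IsAlgClosed Ω] {q : ℕ} (hq : 2 ≤ q)
    {C : Set (Space.{u, v} Ω)} (hC : IsProductClass q C) :
    (∀ X ∈ C, WeightMonodromy q X) ↔
      ∀ c : ℝ, 0 < c → ∃ᶠ n : ℕ in Filter.atTop, ∀ X ∈ C, X.dim = n → InvariantsBound q ((1 + c) * n) X :=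
  main hq hC

end Pool.Agent.Results.MP_0f76a4_ag.MiddleInvariants
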