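import Mathlib
import Pool.Agent.K6.H85.WM.Main

/-!
# The outer layers of the monodromy filtration of a rigid-analytic space with projective reduction

Let `K` be a `p`-adic field whose residue field has `q` elements.  Let `X` be a smooth proper rigid-analytic
space over `K` such that, over a finite extension `K'` of `K` with residue field of degree `k`, there is a
generically finite map `X' → X` (an alteration, for example the identity) with `X'` of dimension `n` having a
strictly semistable formal model with projective special fibre.  There is no other condition on `X`: the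
dimension `n` is arbitrary, `X` need not be algebraic, and the strata of the special fibre are arbitrary smooth
projective varieties.

Let `M` be the monodromy filtration of `H = H ^ m (X)` and `d = min (m, 2 n - m)` (for `m ≤ n` this is `m`).  The
graded pieces `gr_j` are zero for `|j| > d`, and an eigenvalue of a geometric Frobenius lift on `H` is a `q`-Weil
number of a weight between `m - d` and `m + d`.  The weight-monodromy conjecture (Q1) says that the weights on
`gr_j` are `m + j`.

**Theorem.** Let `w` be the weight of an eigenvalue of a geometric Frobenius lift on `gr_j`.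

* If `|j| ≥ d - 1` then `w = m + j`.  So Q1 is true for all the pairs `(m, j)` with `|j| ≥ min (m, 2 n - m) - 1`.
* In general `|w - (m + j)| ≤ max (0, d - 1 - |j|)`, and more precisely: `w ≤ m + j + max (0, d - 2 - |j|)` if
  `m ≤ n`, and `w ≥ m + j - max (0, d - 2 - |j|)` if `m ≥ n`.  In particular (`m ≤ n`) the eigenvalues of weight `0`
  occur only on `gr_(-m)`, those of weight `2 m` only on `gr_m` and those of weight `2 m - 1` only on
  `gr_(m - 1)`.
* Q1 is true for `H ^ 0`, `H ^ 1`, `H ^ (2 n - 1)`, `H ^ (2 n)`, and for `X` if `n ≤ 2`.
* For `H ^ 2`, `n ≥ 3`, only the following is left open: on `gr_0` the weights are `2`, or `1`.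
* One more layer: `|w - (m + j)| ≤ max (0, d - 2 - |j|)` if `d ≥ 2` and the intersections `Y ^ (d)` of `d` different
  components of the special fibre of `X'` have no first cohomology, or the intersections `Y ^ (d - 1)` have no third
  cohomology, or only third cohomology which comes from curves (for `d = 2`, that is for `H ^ 2` and
  `H ^ (2 n - 2)`, this is Q1).

The trivial bound is `|w - (m + j)| ≤ d - |j|` (it comes from `m - d ≤ w ≤ m + d` and
`N ^ j : gr_j ≅ gr_(-j)`).

The proof.  The Rapoport-Zink weight spectral sequence gives the weight filtration `W`, and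
`N ^ d : gr^W_(m + d) → gr^W_(m - d)` is bijective, `N ^ (d - 1) : gr^W_(m + d - 1) → gr^W_(m - d + 1)` is injective if
`m ≤ n` and surjective if `m ≥ n` (`grIso_top`, `grInj_one` in the starting library: this uses the Hodge
index theorem for divisors on the strata and the polarizations of their Picard varieties; the duality
replaces the hard Lefschetz theorem for `X`, which is not available). The new part compares the
monodromy filtration `M` with `W` in this situation: if `N ^ e` is injective on `gr^W_(m + e)` for `e > u`, then the
weights on `gr_j` are at most `m + j + max (0, u - |j|)`, and dually for the surjectivity (`K6.H85.WM.Fil`); and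
it passes to direct summands and finite extensions, where the weight filtration is preserved because it is given by
the eigenvalues of Frobenius (`K6.H85.WM.Sum`).
-/

set_option autoImplicit false

namespace Pool.Agent.Results.MP_0f76a4_ag.OuterLayers

open Module Pool.Agent.Y143 Pool.Agent.Helper60K9.KL Pool.Agent.K6.H87.GN Pool.Agent.K6.H85.WM

/-- **The outer layers of the monodromy filtration.** -/
theorem result {Ω : Type} [Field Ω] [CharZero Ω] [IsAlgClosed Ω] {Γ : Type} {n q k m : ℕ} (hq : 1 < q)
    -- the cohomology of the semistable model and of its generic fibre `X'`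
    (X' : SemistableModel Ω Γ n (q ^ k)) (A : DivisorClasses X'.toSpecialFibre)
    -- `V = H ^ m (X)` is a summand of `H ^ m (X')`
    {V : Type} [AddCommGroup V] [Module Ω V] (Φ N : Module.End Ω V) (c : Ω) (i : V →ₗ[Ω] X'.V m)
    (p : X'.V m →ₗ[Ω] V) (h : IsGaloisSummand q k Φ N (X'.actV m X'.frob) (X'.N m) c i p) :
    -- the outer layers
    WeightsWithin q m Φ N (min (m - 1) (2 * n - m - 2)) (min (m - 2) (2 * n - m - 1)) ∧
    -- low and high degrees, curves and surfaces
    (m ≤ 1 ∨ 2 * n ≤ m + 1 ∨ n ≤ 2 → IsMWPure q m Φ N) ∧
    -- one more layer
    (∀ a : ℕ, a + 2 = m ∨ a + 2 + m = 2 * n → NoObstruction X'.toSpecialFibre a →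
      WeightsWithin q m Φ N a a ∧ (a = 0 → IsMWPure q m Φ N)) := by
  have hQ : 1 < q ^ k := Nat.one_lt_pow h.pos hq
  have h1 : WeightsWithin q m Φ N (min (m - 1) (2 * n - m - 2)) (min (m - 2) (2 * n - m - 1)) := by
    apply within hQ h
    · intro e he
      rcases Nat.lt_or_ge (m - 2) (2 * n - m - 1) with h2 | h2
      · exact inj_low A m e (by omega)
      · exact inj_high A m e (by omega)
    · intro e he
      rcases Nat.lt_or_ge (m - 1) (2 * n - m - 2) with h2 | h2
      · exact surj_low A m e (by omega)
      · exact surj_high A m e (by omega)
  refine ⟨h1, fun h2 => isMWPure_of_within ?_, fun a ha hno => ?_⟩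
  · have e1 : min (m - 1) (2 * n - m - 2) = 0 := by omega
    have e2 : min (m - 2) (2 * n - m - 1) = 0 := by omega
    rwa [e1, e2] at h1
  · have hP := primGysin_of_no hno
    have h2 : WeightsWithin q m Φ N a a := within hQ h (fun e he => (iso_of_prim' A ha hP e he).1)
      (fun e he => (iso_of_prim' A ha hP e he).2)
    refine ⟨h2, ?_⟩
    rintro rfl
    exact isMWPure_of_within h2

end Pool.Agent.Results.MP_0f76a4_ag.OuterLayers
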