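import Mathlib
import Pool.Agent.K6.H50.WM.Hodge

/-!
# Weight-monodromy for rigid-analytic varieties the special fibre of which lifts to characteristic zero

Let `K` be a `p`-adic field with residue field with `q` elements.  Let `X` be a smooth proper rigid-analytic
space over `K` such that, over a finite extension `K'` of `K` with residue field of degree `k`, there is a
generically finite map `X' → X` (an alteration, for example the identity) with `X'` of dimension `n` having a
strictly semistable formal model with projective special fibre `Y`.  The intersections `Y ^ (a + 1)` of `a + 1`
different components of `Y` are smooth projective varieties of dimension `n - a`.

We assume that the cohomology of the strata `Y ^ (a + 1)` carries polarised real Hodge structures which are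
compatible with the restriction maps, the Gysin maps and the class of one ample line bundle
(`PolarisedStrata`): for an isomorphism of `Ω` with the field of complex numbers there are antilinear operators
`J` on the cohomology of the strata, with `J ^ 2 = (-1) ^ m` in degree `m`, which commute with these maps and
satisfy the Hodge-Riemann relations `(-1) ^ (m (m - 1) / 2) B(x, L ^ (d - m) J x) > 0` for the primitive
classes.  In the presence of a Hodge decomposition `J x = i ^ (a - b) x̄` for `x` of type `(a, b)`.

**Theorem.** Then the weight-monodromy conjecture holds for `X`: for every `m`, the eigenvalues of every
geometric Frobenius lift on the graded piece `gr_a` of the monodromy filtration of `H ^ m (X)` are `q`-Weil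
numbers of weight `a + m`.

**Example.** The hypothesis holds if `Y`, as a strict normal crossings scheme with an ample line bundle (or an
equisingular deformation of it over a connected base), lifts to characteristic zero: the cohomology of the
strata, with the restriction and the Gysin maps, is then the complex cohomology of the strata of the lift, and
`J` is given by Hodge theory.  The lift is only a lift of the scheme `Y`: no logarithmic structure is lifted,
the lift need not be smoothable (it need not be d-semistable), and the Frobenius is not lifted.  There is no
condition on the cohomology of the strata: it may have odd cohomology and transcendental classes, and nothing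
is assumed about the algebraic classes.

The space `X` need not be algebraic, so no hard Lefschetz theorem for the generic fibre is available.
The proof is the one of Guillen and Navarro Aznar, and of Saito (for semistable degenerations over a disc): the
`E_1` term of the weight spectral sequence of Rapoport and Zink, considered as a real vector space with the
forms `Re B(x, J y)`, is a polarised representation of `sl(2) × sl(2)`; the Laplace operator of the
differential commutes with the monodromy operator, and harmonic theory shows that the powers of the monodromy
operator are bijective on the `E_2` term.
-/

set_option autoImplicit false

namespace Pool.Agent.Results.MP_0f76a4_ag.PolarisedStrata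

open Module Pool.Agent.Y143 Pool.Agent.K6.H87.GN Pool.Agent.K6.H50.WM

/-- **The weight-monodromy conjecture for smooth proper rigid-analytic spaces which are dominated, after a
finite extension, by a space with a strictly semistable formal model with projective special fibre, the strata
of which have polarised cohomology.** -/
theorem result {Ω : Type} [Field Ω] [CharZero Ω] {Γ : Type} {n q k m : ℕ} (X' : SemistableModel Ω Γ n (q ^ k))
    (ι : Ω ≃+* ℂ) (P : PolarisedStrata X'.toSpecialFibre ι) {V : Type} [AddCommGroup V] [Module Ω V]
    (Φ N : Module.End Ω V) (c : Ω) (i : V →ₗ[Ω] X'.V m) (p : X'.V m →ₗ[Ω] V)
    (h : IsSummand q k Φ N (X'.actV m X'.frob) (X'.N m) c i p) : IsMWPure q m Φ N :=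
  isMWPure_summand h (fun h0 => X'.q_ne (by rw [h0, zero_pow h.pos]))
    (by exact_mod_cast Pool.Agent.K6.H50.WM.isMWPure P m)

end Pool.Agent.Results.MP_0f76a4_ag.PolarisedStrata
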